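import Pool.Agent.NH87.TD.Red
import Pool.Agent.NH87.TD.Mem

/-!
# Deciding equality of total and sub-total domination is NP-complete

Reduction from exact cover by 3-sets with `q ≤ m` triples over `3 q` elements: the graph has a hub
with a pendant leaf, a vertex for every triple adjacent to the hub, and `m` copies of every element,
each adjacent to the triples containing the element. The triples have degree `3 m + 1`, the maximum,
and there are `3 q m + m + 2` vertices, so the sub-total domination number is exactly `q + 1`. A
total dominating set of this size consists of the hub and the triples of an exact cover.
-/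

namespace Pool.Agent.Results.MP_bfbf95_lc.TdsEqNPComplete

open Pool.Agent.NPC Pool.Agent.NH87.TD

/-- TDS-EQ is `NP`-complete. -/
theorem result : InNPP TDSEq ∧ NPHardP TDSEq := ⟨tdsEq_inNPP, tdsEq_npHard⟩

end Pool.Agent.Results.MP_bfbf95_lc.TdsEqNPComplete
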